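import Pool.Agent.H16.PI.Base

set_option autoImplicit false

namespace Pool.Agent.H94.PI

open Polynomial Pool.Agent Pool.Agent.Helper35 Pool.Agent.H16.PI

theorem stE : StE := by
  intro R n
  refine ⟨1 + ∑ i ∈ Finset.range (n + 1), (ht (R ^ i) : ℝ), ?_, ?_⟩
  · have : (0 : ℝ) ≤ ∑ i ∈ Finset.range (n + 1), (ht (R ^ i) : ℝ) :=
      Finset.sum_nonneg fun _ _ => Nat.cast_nonneg _
    linarith
  · intro P hP
    have h1 : ht (P.comp R) ≤ ht P * ∑ i ∈ Finset.range (n + 1), ht (R ^ i) := by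
      apply ht_le_of
      intro j
      have e : P.comp R = ∑ i ∈ Finset.range (n + 1), C (P.coeff i) * R ^ i := by
        unfold Polynomial.comp
        exact eval₂_eq_sum_range' C (by omega) R
      rw [e, finsetSum_coeff]
      refine (Int.natAbs_sum_le _ _).trans ?_
      rw [Finset.mul_sum]
      refine Finset.sum_le_sum fun i _ => ?_
      rw [coeff_C_mul, Int.natAbs_mul]
      exact Nat.mul_le_mul (natAbs_coeff_le_ht P i) (natAbs_coeff_le_ht (R ^ i) j)
    have h2 : (ht (P.comp R) : ℝ) ≤ ht P * ∑ i ∈ Finset.range (n + 1), (ht (R ^ i) : ℝ) := by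
      exact_mod_cast h1
    have h3 : (0 : ℝ) ≤ ht P := Nat.cast_nonneg _
    linarith

theorem abs_pow_sub_pow_leM (M x y : ℝ) (hM : 1 ≤ M) (hx : |x| ≤ M) (hy : |y| ≤ M) (i : ℕ) :
    |x ^ i - y ^ i| ≤ (i : ℝ) * M ^ i * |x - y| := by
  induction i with
  | zero => simp
  | succ i ih =>
    have e : x ^ (i + 1) - y ^ (i + 1) = x ^ i * (x - y) + (x ^ i - y ^ i) * y := by ring
    rw [e]
    have h1 : |x ^ i| ≤ M ^ i := by rw [abs_pow]; exact pow_le_pow_left₀ (abs_nonneg _) hx i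
    have h2 : 0 ≤ M ^ i := by positivity
    have h3 : 0 ≤ |x - y| := abs_nonneg _
    calc |x ^ i * (x - y) + (x ^ i - y ^ i) * y|
        ≤ |x ^ i * (x - y)| + |(x ^ i - y ^ i) * y| := abs_add_le _ _
      _ = |x ^ i| * |x - y| + |x ^ i - y ^ i| * |y| := by rw [abs_mul, abs_mul]
      _ ≤ M ^ i * |x - y| + ((i : ℝ) * M ^ i * |x - y|) * M := by
          gcongr
      _ ≤ M ^ (i + 1) * |x - y| + ((i : ℝ) * M ^ i * |x - y|) * M := by
          gcongr
          omega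
      _ = ((i + 1 : ℕ) : ℝ) * M ^ (i + 1) * |x - y| := by push_cast; ring

theorem abs_aeval_sub_leM (P : ℤ[X]) (M x y : ℝ) (hM : 1 ≤ M) (hx : |x| ≤ M) (hy : |y| ≤ M) (n : ℕ)
    (hn : P.natDegree ≤ n) :
    |aeval x P - aeval y P| ≤ (((n : ℝ) + 1) ^ 2 * M ^ n) * ht P * |x - y| := by
  have hnr : (P.natDegree : ℝ) ≤ n := by exact_mod_cast hn
  rw [aeval_eq_sum, aeval_eq_sum, ← Finset.sum_sub_distrib]
  calc |∑ i ∈ Finset.range (P.natDegree + 1), ((P.coeff i : ℝ) * x ^ i - (P.coeff i : ℝ) * y ^ i)|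
      ≤ ∑ i ∈ Finset.range (P.natDegree + 1),
          |(P.coeff i : ℝ) * x ^ i - (P.coeff i : ℝ) * y ^ i| := Finset.abs_sum_le_sum_abs _ _
    _ ≤ ∑ i ∈ Finset.range (P.natDegree + 1), (((n : ℝ) + 1) * M ^ n) * ht P * |x - y| := by
        refine Finset.sum_le_sum (fun i hi => ?_)
        rw [← mul_sub, abs_mul]
        have hi0 : i ≤ n := by
          have := Finset.mem_range.mp hi
          omega
        have hi' : (i : ℝ) ≤ (n : ℝ) + 1 := by
          have : (i : ℝ) ≤ n := by exact_mod_cast hi0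
          linarith
        have hi2 : M ^ i ≤ M ^ n := pow_le_pow_right₀ hM hi0
        have hM0 : 0 ≤ M ^ i := by positivity
        calc |(P.coeff i : ℝ)| * |x ^ i - y ^ i|
            ≤ ht P * ((i : ℝ) * M ^ i * |x - y|) :=
              mul_le_mul (abs_coeff_le_ht P i) (abs_pow_sub_pow_leM M x y hM hx hy i)
                (abs_nonneg _) (Nat.cast_nonneg _)
          _ ≤ ht P * (((n : ℝ) + 1) * M ^ n * |x - y|) := by gcongr
          _ = _ := by ring
    _ = ((P.natDegree : ℝ) + 1) * ((((n : ℝ) + 1) * M ^ n) * ht P * |x - y|) := by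
        rw [Finset.sum_const, Finset.card_range, nsmul_eq_mul]; push_cast; ring
    _ ≤ ((n : ℝ) + 1) * ((((n : ℝ) + 1) * M ^ n) * ht P * |x - y|) := by
        gcongr
    _ = _ := by ring

theorem stI : StI := by
  intro ξ n E c hc h w hw
  by_contra hcon
  push Not at hcon
  have hE0 : (0 : ℝ) ≤ E := Nat.cast_nonneg _
  set M : ℝ := |ξ| + 1 with hM
  have hM1 : 1 ≤ M := by rw [hM]; linarith [abs_nonneg ξ]
  set K : ℝ := (((n : ℝ) + 1) ^ 2 * M ^ n) with hK
  have hKpos : 0 < K := by rw [hK]; positivity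
  have hlim : Filter.Tendsto (fun H : ℕ => (H : ℝ) ^ (w - E)) Filter.atTop Filter.atTop :=
    (tendsto_rpow_atTop (by linarith)).comp tendsto_natCast_atTop_atTop
  obtain ⟨H, hH⟩ := Filter.eventually_atTop.mp (hlim.eventually_gt_atTop (K / c))
  obtain ⟨α, hα, P, hP0, hPr, hPd, ⟨hPpos, hPle⟩, hPH⟩ :=
    exists_ht_gt_alg (n := n) hw (fun P α => 0 < |ξ - α| ∧ |ξ - α| ≤ (ht P : ℝ) ^ (-w - 1))
      (fun α hα => by
        obtain ⟨P, ⟨h1, h2, h3, h4⟩, h5, h6, h7⟩ := hα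
        exact ⟨P, h1.ne_zero, h4, h5, h6, h7⟩) (max H 1)
  have h2 := hH (ht P) (by omega)
  have hhtr : (1 : ℝ) ≤ ht P := by exact_mod_cast ht_pos hP0
  have hhtpos : (0 : ℝ) < ht P := by linarith
  have hdist : |ξ - α| ≤ 1 := by
    refine hPle.trans ?_
    exact Real.rpow_le_one_of_one_le_of_nonpos hhtr (by linarith)
  have hα2 : |α| ≤ M := by
    have : |α| ≤ |ξ| + |ξ - α| := by
      have := abs_sub_abs_le_abs_sub α ξ
      rw [abs_sub_comm α ξ] at this
      linarith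
    linarith
  have h1 := h P hP0 hPd
  have h3 : |aeval ξ P| ≤ K * ht P * |ξ - α| := by
    have := abs_aeval_sub_leM P M ξ α hM1 (by rw [hM]; linarith) hα2 n hPd
    rw [hPr, sub_zero] at this
    exact this
  have h4 : c ≤ (K * ht P * (ht P : ℝ) ^ (-w - 1)) * (ht P : ℝ) ^ E := by
    refine h1.trans ?_
    gcongr
    exact h3.trans (by gcongr)
  have h5 : (K * ht P * (ht P : ℝ) ^ (-w - 1)) * (ht P : ℝ) ^ E =
      K * ((ht P : ℝ) ^ (w - E))⁻¹ := by
    have e1 : (ht P : ℝ) * (ht P : ℝ) ^ (-w - 1) = (ht P : ℝ) ^ (-w) := by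
      have : (ht P : ℝ) * (ht P : ℝ) ^ (-w - 1) =
          (ht P : ℝ) ^ (1 : ℝ) * (ht P : ℝ) ^ (-w - 1) := by rw [Real.rpow_one]
      rw [this, ← Real.rpow_add hhtpos]; congr 1; ring
    rw [mul_assoc K, e1, mul_assoc, ← Real.rpow_natCast (ht P : ℝ) E, ← Real.rpow_add hhtpos,
      ← Real.rpow_neg hhtpos.le]
    congr 2; ring
  rw [h5] at h4
  have h6 : K * ((ht P : ℝ) ^ (w - E))⁻¹ < c := by
    have hp : 0 < (ht P : ℝ) ^ (w - E) := by positivity
    rw [← div_eq_mul_inv, div_lt_iff₀ hp]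
    rw [div_lt_iff₀ hc] at h2
    linarith
  linarith

end Pool.Agent.H94.PI
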